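import Pool.Agent.H77.QC.ALT

/-!
# Alternating quantifiers: splitting and restriction of the quantified strings
-/

set_option autoImplicit false

namespace Pool.Agent.H70.QC

open Pool.Agent.H70.OQ Pool.Agent.H77.QC

theorem alt_congr {R : List Bool → Prop} {k : ℕ} {b : Bool} {P Q : List (List Bool) → Prop}
    (h : ∀ ws, ws.length = k → (∀ w ∈ ws, R w) → (P ws ↔ Q ws)) : Alt R b k P ↔ Alt R b k Q :=
  ⟨alt_mono R k b P Q fun ws h1 h2 => (h ws h1 h2).1,
    alt_mono R k b Q P fun ws h1 h2 => (h ws h1 h2).2⟩

/-- The kind of the quantifier number `j` if the quantifier number `0` is of the kind `b`. -/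
def par : ℕ → Bool → Bool
  | 0, b => b
  | j + 1, b => par j (!b)

theorem alt_split (R : List Bool → Prop) (k : ℕ) : ∀ (j : ℕ) (b : Bool)
    (P : List (List Bool) → Prop), (Alt R b (j + k) P ↔
      Alt R b j fun ws => Alt R (par j b) k fun vs => P (ws ++ vs)) := by
  intro j
  induction j with
  | zero =>
    intro b P
    rw [Nat.zero_add]
    cases b <;> exact Iff.rfl
  | succ j ih =>
    intro b P
    rw [Nat.add_right_comm]
    cases b
    · change (∀ w, R w → Alt R true (j + k) fun ws => P (w :: ws)) ↔
        ∀ w, R w → Alt R true j fun ws => Alt R (par j true) k fun vs => P (w :: ws ++ vs)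
      exact forall_congr' fun w => imp_congr_right fun _ => ih true fun ws => P (w :: ws)
    · change (∃ w, R w ∧ Alt R false (j + k) fun ws => P (w :: ws)) ↔
        ∃ w, R w ∧ Alt R false j fun ws => Alt R (par j false) k fun vs => P (w :: ws ++ vs)
      exact exists_congr fun w => and_congr_right fun _ => ih false fun ws => P (w :: ws)

/-- The quantifiers may be restricted by a retraction. -/
theorem alt_map {R R' : List Bool → Prop} {τ : List Bool → List Bool}
    (h1 : ∀ w, R w → R' w ∧ τ w = w) (h2 : ∀ w, R' w → R (τ w)) : ∀ (k : ℕ) (b : Bool)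
    (P : List (List Bool) → Prop), (Alt R' b k (fun ws => P (ws.map τ)) ↔ Alt R b k P) := by
  intro k
  induction k with
  | zero =>
    intro b P
    cases b <;> exact Iff.rfl
  | succ k ih =>
    intro b P
    cases b
    · change (∀ w, R' w → Alt R' true k fun ws => P (τ w :: ws.map τ)) ↔
        ∀ w, R w → Alt R true k fun ws => P (w :: ws)
      constructor
      · intro h w hw
        have h3 := h w (h1 w hw).1
        rw [(h1 w hw).2] at h3
        exact (ih true fun ws => P (w :: ws)).1 h3
      · intro h w hw
        exact (ih true fun ws => P (τ w :: ws)).2 (h (τ w) (h2 w hw))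
    · change (∃ w, R' w ∧ Alt R' false k fun ws => P (τ w :: ws.map τ)) ↔
        ∃ w, R w ∧ Alt R false k fun ws => P (w :: ws)
      constructor
      · rintro ⟨w, hw, h⟩
        exact ⟨τ w, h2 w hw, (ih false fun ws => P (τ w :: ws)).1 h⟩
      · rintro ⟨w, hw, h⟩
        refine ⟨w, (h1 w hw).1, ?_⟩
        rw [(h1 w hw).2]
        exact (ih false fun ws => P (w :: ws)).2 h

/-- Replace the strings of length more than `L` by the empty string. -/
def cut (L : ℕ) (w : List Bool) : List Bool := if w.length ≤ L then w else []

theorem cut_le (L : ℕ) (w : List Bool) : (cut L w).length ≤ L := by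
  unfold cut
  split_ifs with h
  · exact h
  · exact Nat.zero_le _

theorem cut_eq {L : ℕ} {w : List Bool} (h : w.length ≤ L) : cut L w = w := if_pos h

theorem alt_cut {L L' : ℕ} (h : L ≤ L') (k : ℕ) (b : Bool) (P : List (List Bool) → Prop) :
    (Alt (fun w => w.length ≤ L') b k (fun ws => P (ws.map (cut L))) ↔
      Alt (fun w => w.length ≤ L) b k P) :=
  alt_map (fun _ hw => ⟨le_trans hw h, cut_eq hw⟩) (fun w _ => cut_le L w) k b P

end Pool.Agent.H70.QC
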