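import Pool.Agent.H70.QC.TargetsS
import Pool.Agent.H70.QC.AltS

/-!
# The opposite answer, and Σ_l in QCΣ_l
-/

set_option autoImplicit false

namespace Pool.Agent.H70.QC

open scoped Matrix
open Finset Filter Pool.Agent.H6.NB Pool.Agent.H70.OQ Pool.Agent.H68.QC Pool.Agent.H77.QC

/-- The opposite answer. -/
noncomputable def ngt (Q : QAlg) : QAlg := { Q with acc := Q.accᶜ }

theorem ngt_state (Q : QAlg) (O : List Bool → Bool) (t : ℕ) :
    (ngt Q).state O t = Q.state O t := by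
  induction t with
  | zero => rfl
  | succ t ih =>
    change (ngt Q).U (t + 1) *ᵥ (fun i => (ngt Q).phase O i * (ngt Q).state O t i) =
      Q.U (t + 1) *ᵥ fun i => Q.phase O i * Q.state O t i
    rw [ih]
    rfl

theorem pf_NEG : T_NEG := by
  intro Q
  refine ⟨ngt Q, rfl, fun m h => h, fun O => ?_⟩
  have h1 : (ngt Q).prob O = ∑ i ∈ Q.accᶜ, ‖Q.state O Q.T i‖ ^ 2 := by
    change ∑ i ∈ Q.accᶜ, ‖(ngt Q).state O Q.T i‖ ^ 2 = _
    rw [ngt_state]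
  have h2 := sum_compl_add_sum Q.acc fun i => ‖Q.state O Q.T i‖ ^ 2
  rw [state_nrm] at h2
  rw [h1]
  unfold QAlg.prob
  linarith

/-- Polynomials are bounded by exponential functions. -/
theorem poly_exp (c : ℕ) : ∃ C : ℕ, ∀ n : ℕ, ((n ^ c + c : ℕ) : ℝ) ≤
    C * 2 ^ ((1 / 2 - 1 / 4 : ℝ) * n) := by
  have h1 : (1 : ℝ) < 2 ^ (1 / 4 : ℝ) := Real.one_lt_rpow (by norm_num) (by norm_num)
  have h2 := tendsto_pow_const_div_const_pow_of_one_lt c h1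
  obtain ⟨B, hB⟩ := h2.bddAbove_range
  refine ⟨⌈B⌉₊ + c, fun n => ?_⟩
  have h3 : (n : ℝ) ^ c / (2 ^ (1 / 4 : ℝ)) ^ n ≤ B := hB ⟨n, rfl⟩
  have h4 : (2 : ℝ) ^ ((1 / 2 - 1 / 4 : ℝ) * n) = (2 ^ (1 / 4 : ℝ)) ^ n := by
    rw [← Real.rpow_natCast, ← Real.rpow_mul (by norm_num)]
    norm_num
  have h5 : (1 : ℝ) ≤ (2 ^ (1 / 4 : ℝ)) ^ n := one_le_pow₀ h1.le
  have h6 : (n : ℝ) ^ c ≤ B * (2 ^ (1 / 4 : ℝ)) ^ n := (div_le_iff₀ (by linarith)).1 h3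
  have h7 : B ≤ ⌈B⌉₊ := Nat.le_ceil B
  have h8 : (c : ℝ) ≤ c * (2 ^ (1 / 4 : ℝ)) ^ n :=
    le_mul_of_one_le_right (Nat.cast_nonneg c) h5
  have h9 : B * (2 ^ (1 / 4 : ℝ)) ^ n ≤ ⌈B⌉₊ * (2 ^ (1 / 4 : ℝ)) ^ n :=
    mul_le_mul_of_nonneg_right h7 (by linarith)
  rw [h4]
  push_cast
  linarith

/-- A machine of `QCΣ_j` from algorithms with polynomially many queries of polynomial length. -/
theorem exists_mach (j c : ℕ) (alg : List Bool → List (List Bool) → QAlg)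
    (hs : ∀ x ws, (alg x ws).Short (x.length ^ c + c))
    (hT : ∀ x ws, (alg x ws).T ≤ x.length ^ c + c) :
    ∃ U : QMach j, Poly U ∧ U.c = c ∧ U.alg = alg := by
  obtain ⟨C, hC⟩ := poly_exp c
  refine ⟨⟨c, C, 1 / 4, by norm_num, alg, fun x ws _ _ => hs x ws, fun x ws _ _ => ?_⟩,
    ⟨c, fun x ws _ _ => hT x ws⟩, rfl, rfl⟩
  exact le_trans (by exact_mod_cast hT x ws) (hC x.length)

theorem pf_INC : T_INC := by
  intro l F
  obtain ⟨C, hC⟩ := poly_exp F.c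
  refine ⟨⟨F.c, C, 1 / 4, by norm_num, fun x ws => dtq (F.tree x ws), fun x ws h1 h2 => ?_,
    fun x ws h1 h2 => ?_⟩, ⟨F.c, fun x ws h1 h2 => ?_⟩, fun O x => ⟨fun h => ?_, fun h => ?_⟩⟩
  · exact dtq_short _ _ (F.short x ws h1 h2)
  · refine le_trans ?_ (hC x.length)
    change ((dtq (F.tree x ws)).T : ℝ) ≤ _
    rw [dtq_T]
    exact_mod_cast F.depth_le x ws h1 h2
  · change (dtq (F.tree x ws)).T ≤ _
    rw [dtq_T]
    exact F.depth_le x ws h1 h2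
  · refine alt_mono _ _ _ _ _ (fun ws _ _ h1 => ?_) h
    change (dtq (F.tree x ws)).prob O = 1
    rw [dtq_prob, if_pos h1]
  · have h1 := (alt_not _ _ _ _).1 h
    refine alt_mono _ _ _ _ _ (fun ws _ _ h1 => ?_) h1
    change (dtq (F.tree x ws)).prob O = 0
    rw [dtq_prob, if_neg h1]

end Pool.Agent.H70.QC
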