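import Pool.Agent.H6.NB.Stmt

/-!
# Composition of quantum query algorithms

`bind A B m` runs the algorithm `A`, measures the result `a` (a basis state of `A`) and then runs the
algorithm `B a` (with dummy queries, up to `m` queries).
-/

set_option autoImplicit false

namespace Pool.Agent.H70.QC

open Finset Pool.Agent.H6.NB
open scoped Matrix

/-! ### Norms -/

theorem unitary_norm {n : Type} [Fintype n] [DecidableEq n] {U : Matrix n n ℂ}
    (h : U ∈ Matrix.unitaryGroup n ℂ) (v : n → ℂ) : ∑ i, ‖(U *ᵥ v) i‖ ^ 2 = ∑ i, ‖v i‖ ^ 2 := by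
  have h1 : ∀ w : n → ℂ, ((∑ i, ‖w i‖ ^ 2 : ℝ) : ℂ) = star w ⬝ᵥ w := by
    intro w
    rw [dotProduct, Complex.ofReal_sum]
    refine sum_congr rfl fun i _ => ?_
    rw [Pi.star_apply, Complex.star_def, mul_comm, Complex.mul_conj, Complex.normSq_eq_norm_sq]
  have h2 : star (U *ᵥ v) ⬝ᵥ (U *ᵥ v) = star v ⬝ᵥ v := by
    rw [Matrix.star_mulVec, Matrix.dotProduct_mulVec, Matrix.vecMul_vecMul,
      ← Matrix.star_eq_conjTranspose, Matrix.mem_unitaryGroup_iff'.1 h, Matrix.vecMul_one]
  have h3 := h1 (U *ᵥ v)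
  rw [h2, ← h1 v] at h3
  exact_mod_cast h3

theorem phase_nrm (Q : QAlg) (O : List Bool → Bool) (b : Q.basis) : ‖Q.phase O b‖ = 1 := by
  unfold QAlg.phase
  cases Q.query b with
  | none => simp
  | some w => by_cases h : O w <;> simp [h]

theorem state_nrm (Q : QAlg) (O : List Bool → Bool) (t : ℕ) : ∑ i, ‖Q.state O t i‖ ^ 2 = 1 := by
  induction t with
  | zero =>
    change ∑ i, ‖(Q.U 0 *ᵥ Q.init) i‖ ^ 2 = 1
    rw [unitary_norm (Q.unitary 0), Q.norm_init]
  | succ t ih =>
    change ∑ i, ‖(Q.U (t + 1) *ᵥ fun i => Q.phase O i * Q.state O t i) i‖ ^ 2 = 1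
    rw [unitary_norm (Q.unitary (t + 1)), ← ih]
    refine sum_congr rfl fun i _ => ?_
    rw [norm_mul, phase_nrm, one_mul]

/-! ### Block matrices -/

theorem bdiag_mulVec {ι : Type} [Fintype ι] [DecidableEq ι] (B : ι → Type) [∀ i, Fintype (B i)]
    [∀ i, DecidableEq (B i)] (U : ∀ i, Matrix (B i) (B i) ℂ) (v : (Σ i, B i) → ℂ) (i : ι) (b : B i) :
    (Matrix.blockDiagonal' U *ᵥ v) ⟨i, b⟩ = (U i *ᵥ fun b' => v ⟨i, b'⟩) b := by
  simp only [Matrix.mulVec, dotProduct]
  rw [Fintype.sum_sigma, Finset.sum_eq_single i]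
  · refine Finset.sum_congr rfl fun y _ => ?_
    rw [Matrix.blockDiagonal'_apply_eq]
  · intro j _ hj
    refine Finset.sum_eq_zero fun y _ => ?_
    rw [Matrix.blockDiagonal'_apply_ne _ _ _ hj.symm, zero_mul]
  · simp

theorem bdiag_unitary {ι : Type} [Fintype ι] [DecidableEq ι] (B : ι → Type) [∀ i, Fintype (B i)]
    [∀ i, DecidableEq (B i)] (U : ∀ i, Matrix (B i) (B i) ℂ)
    (h : ∀ i, U i ∈ Matrix.unitaryGroup (B i) ℂ) :
    Matrix.blockDiagonal' U ∈ Matrix.unitaryGroup (Σ i, B i) ℂ := by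
  rw [Matrix.mem_unitaryGroup_iff, Matrix.star_eq_conjTranspose, Matrix.blockDiagonal'_conjTranspose,
    ← Matrix.blockDiagonal'_mul]
  have h1 : (fun k => U k * (U k)ᴴ) = 1 := by
    funext i
    have := h i
    rw [Matrix.mem_unitaryGroup_iff, Matrix.star_eq_conjTranspose] at this
    exact this
  rw [h1, Matrix.blockDiagonal'_one]

theorem fromBlocks_unitary {m n : Type} [Fintype m] [DecidableEq m] [Fintype n] [DecidableEq n]
    {U : Matrix m m ℂ} {V : Matrix n n ℂ} (hU : U ∈ Matrix.unitaryGroup m ℂ)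
    (hV : V ∈ Matrix.unitaryGroup n ℂ) :
    Matrix.fromBlocks U 0 0 V ∈ Matrix.unitaryGroup (m ⊕ n) ℂ := by
  have h1 := Matrix.mem_unitaryGroup_iff.1 hU
  have h2 := Matrix.mem_unitaryGroup_iff.1 hV
  rw [Matrix.star_eq_conjTranspose] at h1 h2
  rw [Matrix.mem_unitaryGroup_iff, Matrix.star_eq_conjTranspose, Matrix.fromBlocks_conjTranspose,
    Matrix.fromBlocks_multiply]
  simp [h1, h2]

theorem fromBlocks_mulVec_elim {m n : Type} [Fintype m] [Fintype n] (U : Matrix m m ℂ)
    (B : Matrix m n ℂ) (C : Matrix n m ℂ) (V : Matrix n n ℂ) (v : m → ℂ) (w : n → ℂ) :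
    Matrix.fromBlocks U B C V *ᵥ Sum.elim v w =
      Sum.elim (U *ᵥ v + B *ᵥ w) (C *ᵥ v + V *ᵥ w) :=
  Matrix.fromBlocks_mulVec U B C V (Sum.elim v w)

/-- A unitary which agrees with a given isometry on the first summand. -/
theorem iso_unitary {m n : Type} [Fintype m] [DecidableEq m] [Fintype n] [DecidableEq n]
    {W : Matrix n m ℂ} (h : Wᴴ * W = 1) :
    Matrix.fromBlocks 0 Wᴴ W (1 - W * Wᴴ) ∈ Matrix.unitaryGroup (m ⊕ n) ℂ := by
  rw [Matrix.mem_unitaryGroup_iff, Matrix.star_eq_conjTranspose, Matrix.fromBlocks_conjTranspose,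
    Matrix.fromBlocks_multiply]
  have h0 : (1 - W * Wᴴ)ᴴ = 1 - W * Wᴴ := by
    rw [Matrix.conjTranspose_sub, Matrix.conjTranspose_one, Matrix.conjTranspose_mul,
      Matrix.conjTranspose_conjTranspose]
  have h1 : Wᴴ * (1 - W * Wᴴ) = 0 := by
    rw [Matrix.mul_sub, Matrix.mul_one, ← Matrix.mul_assoc, h, Matrix.one_mul, sub_self]
  have h2 : (1 - W * Wᴴ) * W = 0 := by
    rw [Matrix.sub_mul, Matrix.one_mul, Matrix.mul_assoc, h, Matrix.mul_one, sub_self]
  have h3 : (1 - W * Wᴴ) * (1 - W * Wᴴ) = 1 - W * Wᴴ := by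
    rw [Matrix.mul_sub, Matrix.mul_one, ← Matrix.mul_assoc, h2, Matrix.zero_mul, sub_zero]
  rw [h0, Matrix.conjTranspose_conjTranspose, h, h1, h2, h3, Matrix.conjTranspose_zero]
  simp only [Matrix.zero_mul, Matrix.mul_zero, zero_add, add_sub_cancel]
  exact Matrix.fromBlocks_one

/-! ### The composition -/

section bind

variable (A : QAlg) (B : A.basis → QAlg)

/-- The preparation of the initial states of the algorithms `B a`. -/
noncomputable def bW : Matrix (Σ a : A.basis, (B a).basis) A.basis ℂ :=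
  Matrix.of fun x a => if x.1 = a then (B x.1).init x.2 else 0

theorem bW_iso : (bW A B)ᴴ * bW A B = 1 := by
  ext a a'
  rw [Matrix.mul_apply, Matrix.one_apply, Fintype.sum_sigma]
  have h1 : ∀ c : A.basis, ∑ y : (B c).basis, (bW A B)ᴴ a ⟨c, y⟩ * bW A B ⟨c, y⟩ a' =
      if c = a then (if c = a' then 1 else 0) else 0 := by
    intro c
    simp only [Matrix.conjTranspose_apply, bW, Matrix.of_apply]
    by_cases hc : c = a
    · subst hc
      by_cases hc' : c = a'
      · subst hc'
        simp only [if_true]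
        have h2 := (B c).norm_init
        have h3 : ∀ y, star ((B c).init y) * (B c).init y = ((‖(B c).init y‖ ^ 2 : ℝ) : ℂ) := by
          intro y
          rw [Complex.star_def, mul_comm, Complex.mul_conj, Complex.normSq_eq_norm_sq]
        rw [sum_congr rfl fun y _ => h3 y, ← Complex.ofReal_sum, h2, Complex.ofReal_one]
      · simp [hc']
    · simp [hc]
  rw [sum_congr rfl fun c _ => h1 c, sum_ite_eq' univ a, if_pos (mem_univ _)]

/-- The operations of the first part. -/
noncomputable def bS1 (U : Matrix A.basis A.basis ℂ) :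
    Matrix (A.basis ⊕ Σ a : A.basis, (B a).basis) (A.basis ⊕ Σ a : A.basis, (B a).basis) ℂ :=
  Matrix.fromBlocks U 0 0 1

/-- The operations of the second part. -/
noncomputable def bS2 (t : ℕ) :
    Matrix (A.basis ⊕ Σ a : A.basis, (B a).basis) (A.basis ⊕ Σ a : A.basis, (B a).basis) ℂ :=
  Matrix.fromBlocks 1 0 0 (Matrix.blockDiagonal' fun a => if t ≤ (B a).T then (B a).U t else 1)

/-- The transition. -/
noncomputable def bV :
    Matrix (A.basis ⊕ Σ a : A.basis, (B a).basis) (A.basis ⊕ Σ a : A.basis, (B a).basis) ℂ :=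
  Matrix.fromBlocks 0 (bW A B)ᴴ (bW A B) (1 - bW A B * (bW A B)ᴴ)

/-- The operations. -/
noncomputable def bU (t : ℕ) :
    Matrix (A.basis ⊕ Σ a : A.basis, (B a).basis) (A.basis ⊕ Σ a : A.basis, (B a).basis) ℂ :=
  if t < A.T then bS1 A B (A.U t)
  else if t = A.T then bS2 A B 0 * bV A B * bS1 A B (A.U t) else bS2 A B (t - A.T)

theorem bU_unitary (t : ℕ) :
    bU A B t ∈ Matrix.unitaryGroup (A.basis ⊕ Σ a : A.basis, (B a).basis) ℂ := by
  have h2 : ∀ s, bS2 A B s ∈ Matrix.unitaryGroup (A.basis ⊕ Σ a : A.basis, (B a).basis) ℂ := by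
    intro s
    refine fromBlocks_unitary (one_mem _) (bdiag_unitary _ _ fun a => ?_)
    split_ifs
    · exact (B a).unitary s
    · exact one_mem _
  have h1 : bS1 A B (A.U t) ∈
      Matrix.unitaryGroup (A.basis ⊕ Σ a : A.basis, (B a).basis) ℂ :=
    fromBlocks_unitary (A.unitary t) (one_mem _)
  unfold bU
  split_ifs
  · exact h1
  · exact mul_mem (mul_mem (h2 0) (iso_unitary (bW_iso A B))) h1
  · exact h2 _

/-- Run `A`, measure the basis state `a`, run `B a`. -/
noncomputable def bind (m : ℕ) : QAlg where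
  basis := A.basis ⊕ Σ a : A.basis, (B a).basis
  query := Sum.elim A.query fun x => (B x.1).query x.2
  T := A.T + m
  U := bU A B
  unitary := bU_unitary A B
  init := Sum.elim A.init fun _ => 0
  norm_init := by
    rw [Fintype.sum_sum_type]
    simp [A.norm_init]
  acc := ((univ : Finset A.basis).sigma fun a => (B a).acc).map Function.Embedding.inr

variable (m : ℕ) (O : List Bool → Bool)

/-- The phases. -/
noncomputable def bph : (A.basis ⊕ Σ a : A.basis, (B a).basis) → ℂ :=
  Sum.elim (A.phase O) fun x => (B x.1).phase O x.2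

/-- The states. -/
noncomputable def bst : ℕ → (A.basis ⊕ Σ a : A.basis, (B a).basis) → ℂ
  | 0 => bU A B 0 *ᵥ Sum.elim A.init fun _ => 0
  | t + 1 => bU A B (t + 1) *ᵥ fun i => bph A B O i * bst t i

theorem bind_state (t : ℕ) : (bind A B m).state O t = bst A B O t := by
  induction t with
  | zero => rfl
  | succ t ih =>
    change (bind A B m).U (t + 1) *ᵥ (fun i => (bind A B m).phase O i *
      (bind A B m).state O t i) = bU A B (t + 1) *ᵥ fun i => bph A B O i * bst A B O t i
    rw [ih]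
    have h : (bind A B m).phase O = bph A B O := by
      funext i
      cases i <;> rfl
    rw [h]
    rfl

theorem fn0 {ι : Type} : (fun _ => 0 : ι → ℂ) = 0 := rfl

theorem bS1_elim (U : Matrix A.basis A.basis ℂ) (v : A.basis → ℂ) :
    bS1 A B U *ᵥ Sum.elim v (fun _ => 0) = Sum.elim (U *ᵥ v) fun _ => 0 := by
  rw [bS1, fromBlocks_mulVec_elim, fn0, Matrix.mulVec_zero, Matrix.zero_mulVec, Matrix.mulVec_zero,
    add_zero, add_zero]

theorem bph_elim (v : A.basis → ℂ) (w : (Σ a : A.basis, (B a).basis) → ℂ) :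
    (fun i => bph A B O i * Sum.elim v w i) =
      Sum.elim (fun a => A.phase O a * v a) fun x => (B x.1).phase O x.2 * w x := by
  funext i
  cases i <;> rfl

theorem bst_lt (t : ℕ) (ht : t < A.T) : bst A B O t = Sum.elim (A.state O t) fun _ => 0 := by
  induction t with
  | zero =>
    have : bU A B 0 = bS1 A B (A.U 0) := if_pos ht
    change bU A B 0 *ᵥ Sum.elim A.init (fun _ => 0) = _
    rw [this, bS1_elim]
    rfl
  | succ t ih =>
    have : bU A B (t + 1) = bS1 A B (A.U (t + 1)) := if_pos ht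
    change bU A B (t + 1) *ᵥ (fun i => bph A B O i * bst A B O t i) = _
    rw [this, ih (by omega), bph_elim]
    simp only [mul_zero]
    rw [bS1_elim]
    rfl

/-- The state of `B a` after `t` steps, with dummy queries after the end. -/
noncomputable def stp (Q : QAlg) (O : List Bool → Bool) : ℕ → (Q.basis → ℂ)
  | 0 => Q.U 0 *ᵥ Q.init
  | t + 1 => (if t + 1 ≤ Q.T then Q.U (t + 1) else 1) *ᵥ fun i => Q.phase O i * stp Q O t i

theorem stp_eq (Q : QAlg) (t : ℕ) (ht : t ≤ Q.T) : stp Q O t = Q.state O t := by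
  induction t with
  | zero => rfl
  | succ t ih =>
    change (if t + 1 ≤ Q.T then Q.U (t + 1) else 1) *ᵥ (fun i => Q.phase O i * stp Q O t i) = _
    rw [if_pos ht, ih (by omega)]
    rfl

theorem stp_norm (Q : QAlg) (s : ℕ) (b : Q.basis) :
    ‖stp Q O (Q.T + s) b‖ = ‖Q.state O Q.T b‖ := by
  induction s with
  | zero => rw [Nat.add_zero, stp_eq O Q _ le_rfl]
  | succ s ih =>
    change ‖((if Q.T + s + 1 ≤ Q.T then Q.U (Q.T + s + 1) else 1) *ᵥ
      (fun i => Q.phase O i * stp Q O (Q.T + s) i)) b‖ = _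
    rw [if_neg (by omega), Matrix.one_mulVec, norm_mul, phase_nrm, one_mul, ih]

theorem bind_pre (v : A.basis → ℂ) :
    (bS2 A B 0 * bV A B) *ᵥ Sum.elim v (fun _ => 0) =
      Sum.elim (fun _ => 0) fun x => v x.1 * stp (B x.1) O 0 x.2 := by
  rw [← Matrix.mulVec_mulVec, bV, fromBlocks_mulVec_elim, bS2, fromBlocks_mulVec_elim, fn0]
  simp only [Matrix.zero_mulVec, Matrix.mulVec_zero, add_zero, zero_add]
  congr 1
  funext x
  obtain ⟨a, b⟩ := x
  rw [bdiag_mulVec, if_pos (Nat.zero_le _)]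
  have h1 : (fun b' => (bW A B *ᵥ v) ⟨a, b'⟩) = fun b' => v a * (B a).init b' := by
    funext b'
    simp only [Matrix.mulVec, dotProduct, bW, Matrix.of_apply]
    rw [Finset.sum_eq_single a]
    · rw [if_pos rfl, mul_comm]
    · intro c _ hc
      rw [if_neg (fun e => hc e.symm), zero_mul]
    · simp
  rw [h1]
  simp only [Matrix.mulVec, dotProduct, stp]
  rw [Finset.mul_sum]
  exact Finset.sum_congr rfl fun y _ => by ring

theorem bst_ge (r : ℕ) : bst A B O (A.T + r) =
    Sum.elim (fun _ => 0) fun x => A.state O A.T x.1 * stp (B x.1) O r x.2 := by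
  induction r with
  | zero =>
    have hU : bU A B A.T = bS2 A B 0 * bV A B * bS1 A B (A.U A.T) := by
      unfold bU
      rw [if_neg (lt_irrefl _), if_pos rfl]
    have hmain : ∀ v : A.basis → ℂ, (bS2 A B 0 * bV A B * bS1 A B (A.U A.T)) *ᵥ
        Sum.elim v (fun _ => 0) = Sum.elim (fun _ => 0)
          fun x => (A.U A.T *ᵥ v) x.1 * stp (B x.1) O 0 x.2 := by
      intro v
      rw [← Matrix.mulVec_mulVec, bS1_elim, bind_pre A B O]
    rw [Nat.add_zero]
    rcases Nat.eq_zero_or_pos A.T with h | h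
    · have e2 : bst A B O A.T = bU A B A.T *ᵥ Sum.elim A.init (fun _ => 0) := by
        rw [h]
        rfl
      have e3 : A.state O A.T = A.U A.T *ᵥ A.init := by
        rw [h]
        rfl
      rw [e2, hU, hmain, e3]
    · obtain ⟨t, ht⟩ : ∃ t, A.T = t + 1 := ⟨A.T - 1, by omega⟩
      have e2 : bst A B O A.T = bU A B A.T *ᵥ fun i => bph A B O i * bst A B O t i := by
        rw [ht]
        rfl
      have e3 : A.state O A.T = A.U A.T *ᵥ fun i => A.phase O i * A.state O t i := by
        rw [ht]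
        rfl
      rw [e2, hU, bst_lt A B O t (by omega), bph_elim]
      simp only [mul_zero]
      rw [hmain, e3]
  | succ r ih =>
    have hU : bU A B (A.T + r + 1) = bS2 A B (r + 1) := by
      unfold bU
      rw [if_neg (by omega), if_neg (by omega)]
      congr 1
      omega
    change bU A B (A.T + r + 1) *ᵥ (fun i => bph A B O i * bst A B O (A.T + r) i) = _
    rw [hU, ih, bph_elim]
    simp only [mul_zero]
    rw [bS2, fromBlocks_mulVec_elim, fn0]
    simp only [Matrix.zero_mulVec, Matrix.mulVec_zero, add_zero, zero_add]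
    congr 1
    funext x
    obtain ⟨a, b⟩ := x
    rw [bdiag_mulVec]
    change _ = A.state O A.T a * ((if r + 1 ≤ (B a).T then (B a).U (r + 1) else 1) *ᵥ
      fun i => (B a).phase O i * stp (B a) O r i) b
    simp only [Matrix.mulVec, dotProduct]
    rw [Finset.mul_sum]
    exact Finset.sum_congr rfl fun y _ => by ring

/-- The acceptance probability of the composition. -/
theorem bind_prob (hm : ∀ a, (B a).T ≤ m) :
    (bind A B m).prob O = ∑ a, ‖A.state O A.T a‖ ^ 2 * (B a).prob O := by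
  have h1 : (bind A B m).prob O = ∑ z ∈ ((univ : Finset A.basis).sigma fun a => (B a).acc).map
      (Function.Embedding.inr (α := A.basis)), ‖bst A B O (A.T + m) z‖ ^ 2 := by
    unfold QAlg.prob
    rw [bind_state]
    rfl
  rw [h1, sum_map, sum_sigma]
  refine sum_congr rfl fun a _ => ?_
  unfold QAlg.prob
  rw [mul_sum]
  refine sum_congr rfl fun b _ => ?_
  rw [bst_ge]
  obtain ⟨s, hs⟩ := Nat.exists_eq_add_of_le (hm a)
  change ‖A.state O A.T a * stp (B a) O m b‖ ^ 2 = _
  rw [norm_mul, mul_pow, hs, stp_norm]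

theorem bind_short (k : ℕ) (hA : A.Short k) (hB : ∀ a, (B a).Short k) : (bind A B m).Short k := by
  rintro (a | x) w hw
  · exact hA a w hw
  · exact hB x.1 x.2 w hw

end bind

/-- Run `A`; if it accepts run `B₁`, otherwise run `B₀`. -/
noncomputable def ite (A B₁ B₀ : QAlg) : QAlg :=
  bind A (fun a => if a ∈ A.acc then B₁ else B₀) (max B₁.T B₀.T)

theorem ite_T (A B₁ B₀ : QAlg) : (ite A B₁ B₀).T = A.T + max B₁.T B₀.T := rfl

theorem ite_short (A B₁ B₀ : QAlg) (k : ℕ) (hA : A.Short k) (h1 : B₁.Short k) (h0 : B₀.Short k) :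
    (ite A B₁ B₀).Short k := by
  refine bind_short _ _ _ k hA fun a => ?_
  split_ifs <;> assumption

theorem ite_prob (A B₁ B₀ : QAlg) (O : List Bool → Bool) :
    (ite A B₁ B₀).prob O = A.prob O * B₁.prob O + (1 - A.prob O) * B₀.prob O := by
  unfold ite
  rw [bind_prob]
  · have h1 : ∀ a : A.basis, ‖A.state O A.T a‖ ^ 2 * (if a ∈ A.acc then B₁ else B₀).prob O =
        (if a ∈ A.acc then ‖A.state O A.T a‖ ^ 2 else 0) * B₁.prob O +
          (‖A.state O A.T a‖ ^ 2 - if a ∈ A.acc then ‖A.state O A.T a‖ ^ 2 else 0) *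
            B₀.prob O := by
      intro a
      split_ifs <;> ring
    rw [sum_congr rfl fun a _ => h1 a, sum_add_distrib, ← sum_mul, ← sum_mul, sum_sub_distrib,
      state_nrm]
    have h2 : ∑ a, (if a ∈ A.acc then ‖A.state O A.T a‖ ^ 2 else 0) = A.prob O := by
      rw [← sum_filter]
      unfold QAlg.prob
      refine sum_congr ?_ fun _ _ => rfl
      ext
      simp
    rw [h2]
  · intro a
    split_ifs
    · exact le_max_left _ _
    · exact le_max_right _ _

end Pool.Agent.H70.QC
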