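import Pool.Agent.H70.QC.TargetsS

/-!
# Row CHS: run the algorithms `A i`, let `a i` be the outcome, then run `B a`
-/

set_option autoImplicit false

namespace Pool.Agent.H70.QC

open Finset Pool.Agent.H6.NB

variable {ι : Type} [Fintype ι] [DecidableEq ι] (A : ι → QAlg) (B : (ι → Bool) → QAlg)

/-- Run the algorithms of the list. -/
noncomputable def chs : List ι → (ι → Bool) → QAlg
  | [], a => B a
  | i :: l, a => ite (A i) (chs l (Function.update a i true)) (chs l (Function.update a i false))

omit [Fintype ι] in
theorem chs_T (t t' : ℕ) (hA : ∀ i, (A i).T ≤ t) (hB : ∀ a, (B a).T ≤ t') : ∀ (l : List ι)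
    (a : ι → Bool), (chs A B l a).T ≤ l.length * t + t' := by
  intro l
  induction l with
  | nil =>
    intro a
    rw [List.length_nil, Nat.zero_mul, Nat.zero_add]
    exact hB a
  | cons i l ih =>
    intro a
    change (A i).T + max (chs A B l _).T (chs A B l _).T ≤ _
    rw [List.length_cons, Nat.succ_mul]
    have h1 := hA i
    have h2 := ih (Function.update a i true)
    have h3 := ih (Function.update a i false)
    have h4 := max_le h2 h3
    omega

omit [Fintype ι] in
theorem chs_short (m : ℕ) (hA : ∀ i, (A i).Short m) (hB : ∀ a, (B a).Short m) : ∀ (l : List ι)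
    (a : ι → Bool), (chs A B l a).Short m := by
  intro l
  induction l with
  | nil => exact hB
  | cons i l ih => exact fun a => ite_short _ _ _ m (hA i) (ih _) (ih _)

/-- The probability of the outcome. -/
noncomputable def wt (O : List Bool → Bool) (i : ι) (b : Bool) : ℝ :=
  if b then (A i).prob O else 1 - (A i).prob O

theorem chs_prob (O : List Bool → Bool) : ∀ (l : List ι), l.Nodup → ∀ a : ι → Bool,
    (chs A B l a).prob O = ∑ a' : ι → Bool, (∏ i, if i ∈ l then wt A O i (a' i) else
      if a' i = a i then 1 else 0) * (B a').prob O := by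
  intro l
  induction l with
  | nil =>
    intro _ a
    have h1 : ∀ a' : ι → Bool, (∏ i, if i ∈ ([] : List ι) then wt A O i (a' i) else
        if a' i = a i then (1 : ℝ) else 0) = if a' = a then 1 else 0 := by
      intro a'
      by_cases h : a' = a
      · rw [if_pos h]
        refine prod_eq_one fun i _ => ?_
        simp [h]
      · rw [if_neg h]
        obtain ⟨i, hi⟩ := Function.ne_iff.1 h
        exact prod_eq_zero (mem_univ i) (by simp [hi])
    rw [sum_congr rfl fun a' _ => by rw [h1 a']]
    rw [Finset.sum_eq_single a]
    · rw [if_pos rfl, one_mul]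
      rfl
    · intro a' _ h
      rw [if_neg h, zero_mul]
    · simp
  | cons i l ih =>
    intro hl a
    obtain ⟨hi, hl'⟩ := List.nodup_cons.1 hl
    change (ite (A i) (chs A B l (Function.update a i true))
      (chs A B l (Function.update a i false))).prob O = _
    rw [ite_prob, ih hl', ih hl', mul_sum, mul_sum, ← sum_add_distrib]
    refine sum_congr rfl fun a' _ => ?_
    have h1 : ∀ b : Bool, (∏ x, if x ∈ l then wt A O x (a' x) else
        if a' x = Function.update a i b x then (1 : ℝ) else 0) =
        (if a' i = b then 1 else 0) * ∏ x ∈ univ.erase i, if x ∈ l then wt A O x (a' x) else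
          if a' x = a x then 1 else 0 := by
      intro b
      rw [← mul_prod_erase univ _ (mem_univ i), if_neg hi, Function.update_self]
      congr 1
      refine prod_congr rfl fun x hx => ?_
      rw [Function.update_of_ne (ne_of_mem_erase hx)]
    have h2 : (∏ x, if x ∈ i :: l then wt A O x (a' x) else if a' x = a x then (1 : ℝ) else 0) =
        wt A O i (a' i) * ∏ x ∈ univ.erase i, if x ∈ l then wt A O x (a' x) else
          if a' x = a x then 1 else 0 := by
      rw [← mul_prod_erase univ _ (mem_univ i), if_pos List.mem_cons_self]
      congr 1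
      refine prod_congr rfl fun x hx => ?_
      have h3 : x ∈ i :: l ↔ x ∈ l := by
        rw [List.mem_cons]
        exact ⟨fun h => h.resolve_left (ne_of_mem_erase hx), Or.inr⟩
      simp only [h3]
    rw [h1, h1, h2]
    unfold wt
    cases a' i <;> simp <;> ring

theorem pf_CHS : T_CHS := by
  intro ι _ _ A B t t' m hA hB
  refine ⟨chs A B (univ : Finset ι).toList fun _ => false, ?_, ?_, fun O => ?_⟩
  · have h := chs_T A B t t' (fun i => (hA i).1) (fun a => (hB a).1) (univ : Finset ι).toList
      fun _ => false
    rw [Finset.length_toList, card_univ] at h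
    exact h
  · exact chs_short A B m (fun i => (hA i).2) (fun a => (hB a).2) _ _
  · rw [chs_prob A B O _ (nodup_toList _)]
    refine sum_congr rfl fun a _ => ?_
    congr 1
    refine prod_congr rfl fun i _ => ?_
    rw [if_pos (mem_toList.2 (mem_univ i))]
    rfl

end Pool.Agent.H70.QC
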