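import Mathlib

/-!
# Functions of polynomial growth
-/

set_option autoImplicit false

namespace Pool.Agent.H70.QC

/-- `f` is bounded by a polynomial. -/
def PB (f : ℕ → ℕ) : Prop := ∃ c, ∀ n, f n ≤ (n + 2) ^ c

theorem PB.mono {f g : ℕ → ℕ} (h : PB g) (hfg : ∀ n, f n ≤ g n) : PB f := by
  obtain ⟨c, hc⟩ := h
  exact ⟨c, fun n => (hfg n).trans (hc n)⟩

theorem PB.const (a : ℕ) : PB fun _ => a := by
  refine ⟨a, fun n => ?_⟩
  calc a ≤ 2 ^ a := (Nat.lt_two_pow_self).le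
    _ ≤ (n + 2) ^ a := Nat.pow_le_pow_left (by omega) a

theorem PB.id : PB fun n => n := ⟨1, fun n => by rw [pow_one]; exact Nat.le_add_right n 2⟩

theorem PB.mul {f g : ℕ → ℕ} (hf : PB f) (hg : PB g) : PB fun n => f n * g n := by
  obtain ⟨c, hc⟩ := hf
  obtain ⟨d, hd⟩ := hg
  refine ⟨c + d, fun n => ?_⟩
  rw [pow_add]
  exact Nat.mul_le_mul (hc n) (hd n)

theorem PB.add {f g : ℕ → ℕ} (hf : PB f) (hg : PB g) : PB fun n => f n + g n := by
  obtain ⟨c, hc⟩ := hf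
  obtain ⟨d, hd⟩ := hg
  refine ⟨c + d + 1, fun n => ?_⟩
  have h1 : (n + 2) ^ c ≤ (n + 2) ^ (c + d) := Nat.pow_le_pow_right (by omega) (by omega)
  have h2 : (n + 2) ^ d ≤ (n + 2) ^ (c + d) := Nat.pow_le_pow_right (by omega) (by omega)
  have h3 : (n + 2) ^ (c + d) * 2 ≤ (n + 2) ^ (c + d + 1) := by
    rw [pow_succ]
    exact Nat.mul_le_mul_left _ (by omega)
  have h4 := hc n
  have h5 := hd n
  change f n + g n ≤ _
  omega

theorem PB.pow {f : ℕ → ℕ} (hf : PB f) (a : ℕ) : PB fun n => f n ^ a := by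
  obtain ⟨c, hc⟩ := hf
  refine ⟨c * a, fun n => ?_⟩
  rw [pow_mul]
  exact Nat.pow_le_pow_left (hc n) a

/-- The form used in the definition of the machines. -/
theorem PB.std {f : ℕ → ℕ} (hf : PB f) : ∃ c, ∀ n, f n ≤ n ^ c + c := by
  obtain ⟨c, hc⟩ := hf
  obtain ⟨B, hB⟩ : ∃ B, B = 3 ^ c := ⟨_, rfl⟩
  refine ⟨2 * c + B, fun n => (hc n).trans ?_⟩
  rcases Nat.lt_or_ge n 2 with h | h
  · have h1 : (n + 2) ^ c ≤ 3 ^ c := Nat.pow_le_pow_left (by omega) c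
    rw [← hB] at h1
    omega
  · have h1 : (n + 2) ^ c ≤ (n * n) ^ c := Nat.pow_le_pow_left (by nlinarith) c
    have h2 : (n * n) ^ c = n ^ (2 * c) := by rw [← pow_two, ← pow_mul]
    have h3 : n ^ (2 * c) ≤ n ^ (2 * c + B) := Nat.pow_le_pow_right (by omega) (by omega)
    omega

end Pool.Agent.H70.QC
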