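import Pool.Agent.H70.QC.INC
import Pool.Agent.H70.QC.Poly

/-!
# Row SPV: the level Σ_(k+j) is contained in QCΣ_j
-/

set_option autoImplicit false

namespace Pool.Agent.H70.QC

open Finset Filter Pool.Agent.H6.NB Pool.Agent.H70.OQ Pool.Agent.H68.QC Pool.Agent.H77.QC
open Pool.Agent.H70.RW (yesW inw)

/-! ### Encoding -/

/-- The code of a list of strings. -/
def encl : List (List Bool) → List Bool
  | [] => []
  | w :: ws => code w (encl ws) 0

theorem encl_inj (hCOD : T_COD) : ∀ (ws ws' : List (List Bool)), ws.length = ws'.length →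
    encl ws = encl ws' → ws = ws' := by
  intro ws
  induction ws with
  | nil =>
    intro ws' h _
    exact (List.length_eq_zero_iff.1 h.symm).symm
  | cons w ws ih =>
    intro ws' h he
    cases ws' with
    | nil => simp at h
    | cons w' ws' =>
      obtain ⟨h1, h2, -⟩ := hCOD.1 _ _ _ _ _ _ he
      rw [h1, ih ws' (by simpa using h) h2]

theorem encl_len (hCOD : T_COD) (L : ℕ) : ∀ ws : List (List Bool), (∀ w ∈ ws, w.length ≤ L) →
    (encl ws).length + (2 * L + 2) ≤ 2 ^ ws.length * (2 * L + 2) := by
  intro ws
  induction ws with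
  | nil =>
    intro _
    change 0 + (2 * L + 2) ≤ 2 ^ 0 * (2 * L + 2)
    omega
  | cons w ws ih =>
    intro h
    have h1 := ih fun w' hw' => h w' (List.mem_cons_of_mem _ hw')
    have h2 := h w List.mem_cons_self
    have h3 : (encl (w :: ws)).length = 2 * w.length + 2 * (encl ws).length + 0 + 2 :=
      hCOD.2 w (encl ws) 0
    rw [h3, List.length_cons, pow_succ]
    have h4 : 2 ^ ws.length * 2 * (2 * L + 2) = 2 * (2 ^ ws.length * (2 * L + 2)) := by ring
    rw [h4]
    omega

theorem encl_ge (hCOD : T_COD) (x : List Bool) (ws : List (List Bool)) :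
    x.length ≤ (encl (x :: ws)).length := by
  have h3 : (encl (x :: ws)).length = 2 * x.length + 2 * (encl ws).length + 0 + 2 :=
    hCOD.2 x (encl ws) 0
  omega

/-! ### Negation of trees -/

/-- The tree with the opposite answers. -/
def ndt : DT → DT
  | .leaf b => .leaf (!b)
  | .node w l r => .node w (ndt l) (ndt r)

theorem ndt_depth (t : DT) : (ndt t).depth = t.depth := by
  induction t with
  | leaf b => rfl
  | node w l r hl hr =>
    change max (ndt l).depth (ndt r).depth + 1 = _
    rw [hl, hr]
    rfl

theorem ndt_short (m : ℕ) (t : DT) (h : t.Short m) : (ndt t).Short m := by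
  induction t with
  | leaf b => trivial
  | node w l r hl hr => exact ⟨h.1, hl h.2.1, hr h.2.2⟩

theorem ndt_eval (O : List Bool → Bool) (t : DT) : (ndt t).eval O = !t.eval O := by
  induction t with
  | leaf b => rfl
  | node w l r hl hr =>
    change (if O w then (ndt r).eval O else (ndt l).eval O) = !(if O w then r.eval O else l.eval O)
    rw [hl, hr]
    split_ifs <;> rfl

/-- The tree `t` or its negation. -/
def sdt (b : Bool) (t : DT) : DT := if b then t else ndt t

theorem sdt_depth (b : Bool) (t : DT) : (sdt b t).depth = t.depth := by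
  cases b
  · exact ndt_depth t
  · rfl

theorem sdt_short (m : ℕ) (b : Bool) (t : DT) (h : t.Short m) : (sdt b t).Short m := by
  cases b
  · exact ndt_short m t h
  · exact h

/-! ### The machine for the last quantifiers -/

section

variable {k j : ℕ} (F : Machine (k + j))

/-- The length of the quantified strings. -/
def Lx (x : List Bool) : ℕ := x.length ^ F.c + F.c

/-- The codes of an input and `j` strings. -/
def Gd (z : List Bool) (p : List Bool × List (List Bool)) : Prop :=
  p.2.length = j ∧ (∀ w ∈ p.2, w.length ≤ Lx F p.1) ∧ z = encl (p.1 :: p.2)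

open Classical in
/-- The trees. -/
noncomputable def trV (z : List Bool) (vs : List (List Bool)) : DT :=
  if h : ∃ p : List Bool × List (List Bool), Gd F z p then
    sdt (par j true) (F.tree h.choose.1 (h.choose.2 ++ vs.map (cut (Lx F h.choose.1))))
  else DT.leaf false

theorem words_ok (x : List Bool) (ws vs : List (List Bool)) (h1 : ws.length = j)
    (h2 : ∀ w ∈ ws, w.length ≤ Lx F x) (h3 : vs.length = k) :
    (ws ++ vs.map (cut (Lx F x))).length = k + j ∧
      ∀ w ∈ ws ++ vs.map (cut (Lx F x)), w.length ≤ x.length ^ F.c + F.c := by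
  constructor
  · rw [List.length_append, List.length_map, h1, h3, add_comm]
  · intro w hw
    rcases List.mem_append.1 hw with h | h
    · exact h2 w h
    · obtain ⟨v, -, rfl⟩ := List.mem_map.1 h
      exact cut_le _ _

/-- The machine for the last quantifiers. -/
noncomputable def macV (hCOD : T_COD) : Machine k where
  c := F.c
  tree := trV F
  depth_le := by
    intro z vs h1 _
    unfold trV
    split_ifs with h
    · obtain ⟨g1, g2, g3⟩ := h.choose_spec
      obtain ⟨w1, w2⟩ := words_ok F h.choose.1 h.choose.2 vs g1 g2 h1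
      rw [sdt_depth]
      refine (F.depth_le _ _ w1 w2).trans (Nat.add_le_add_right (Nat.pow_le_pow_left ?_ _) _)
      have h4 := encl_ge hCOD h.choose.1 h.choose.2
      rw [← g3] at h4
      exact h4
    · exact Nat.zero_le _
  short := by
    intro z vs h1 _
    unfold trV
    split_ifs with h
    · obtain ⟨g1, g2, g3⟩ := h.choose_spec
      obtain ⟨w1, w2⟩ := words_ok F h.choose.1 h.choose.2 vs g1 g2 h1
      refine sdt_short _ _ _ ?_
      have h5 : ∀ (m m' : ℕ) (t : DT), m ≤ m' → t.Short m → t.Short m' := by
        intro m m' t hm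
        induction t with
        | leaf b => exact fun _ => trivial
        | node w l r hl hr => exact fun h => ⟨h.1.trans hm, hl h.2.1, hr h.2.2⟩
      refine h5 _ _ _ (Nat.add_le_add_right (Nat.pow_le_pow_left ?_ _) _) (F.short _ _ w1 w2)
      have h4 := encl_ge hCOD h.choose.1 h.choose.2
      rw [← g3] at h4
      exact h4
    · trivial

/-- The statement after the first `j` quantifiers. -/
def Inr (O : List Bool → Bool) (x : List Bool) (ws : List (List Bool)) : Prop :=
  Alt (fun w => w.length ≤ Lx F x) (par j true) k fun vs => (F.tree x (ws ++ vs)).eval O = true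

theorem lang_iff (O : List Bool → Bool) (x : List Bool) :
    x ∈ F.lang O ↔ Alt (fun w => w.length ≤ Lx F x) true j (Inr F O x) := by
  have h : x ∈ F.lang O ↔ Alt (fun w => w.length ≤ Lx F x) true (j + k) fun ws =>
      (F.tree x ws).eval O = true := by
    rw [add_comm j k]
    exact Iff.rfl
  rw [h, alt_split]
  exact Iff.rfl

theorem macV_lang (hCOD : T_COD) (O : List Bool → Bool) (x : List Bool) (ws : List (List Bool))
    (h1 : ws.length = j) (h2 : ∀ w ∈ ws, w.length ≤ Lx F x) :
    encl (x :: ws) ∈ (macV F hCOD).lang O ↔ (Inr F O x ws ↔ par j true = true) := by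
  have hex : ∃ p : List Bool × List (List Bool), Gd F (encl (x :: ws)) p := ⟨(x, ws), h1, h2, rfl⟩
  have hch : hex.choose = (x, ws) := by
    obtain ⟨g1, g2, g3⟩ := hex.choose_spec
    have h3 := encl_inj hCOD (x :: ws) (hex.choose.1 :: hex.choose.2)
      (by rw [List.length_cons, List.length_cons, h1, g1]) g3
    have h4 : x = hex.choose.1 ∧ ws = hex.choose.2 := List.cons.inj h3
    exact Prod.ext h4.1.symm h4.2.symm
  have htr : ∀ vs, trV F (encl (x :: ws)) vs =
      sdt (par j true) (F.tree x (ws ++ vs.map (cut (Lx F x)))) := by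
    intro vs
    unfold trV
    rw [dif_pos hex, hch]
  have hL : Lx F x ≤ (encl (x :: ws)).length ^ F.c + F.c :=
    Nat.add_le_add_right (Nat.pow_le_pow_left (encl_ge hCOD x ws) _) _
  have hlang : encl (x :: ws) ∈ (macV F hCOD).lang O ↔
      Alt (fun w => w.length ≤ Lx F x) true k fun vs =>
        (sdt (par j true) (F.tree x (ws ++ vs))).eval O = true := by
    rw [← alt_cut hL k true]
    change Alt (fun w => w.length ≤ (encl (x :: ws)).length ^ F.c + F.c) true k
      (fun vs => (trV F (encl (x :: ws)) vs).eval O = true) ↔ _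
    have h5 : (fun vs => (trV F (encl (x :: ws)) vs).eval O = true) = fun vs =>
        (sdt (par j true) (F.tree x (ws ++ vs.map (cut (Lx F x))))).eval O = true := by
      funext vs
      rw [htr]
    rw [h5]
  rw [hlang]
  unfold Inr
  cases par j true
  · have h6 : (fun vs => (sdt false (F.tree x (ws ++ vs))).eval O = true) = fun vs =>
        ¬ (F.tree x (ws ++ vs)).eval O = true := by
      funext vs
      change ((ndt (F.tree x (ws ++ vs))).eval O = true) = _
      rw [ndt_eval]
      cases (F.tree x (ws ++ vs)).eval O <;> simp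
    rw [h6]
    have h7 := alt_not (fun w => w.length ≤ Lx F x) k false fun vs =>
      (F.tree x (ws ++ vs)).eval O = true
    rw [Bool.not_false] at h7
    rw [← h7]
    simp
  · change Alt _ true k (fun vs => (F.tree x (ws ++ vs)).eval O = true) ↔ _
    simp

end

/-- `Q` or the opposite answer. -/
noncomputable def sgq (b : Bool) (Q : QAlg) : QAlg := if b then Q else ngt Q

theorem ngt_prob (Q : QAlg) (O : List Bool → Bool) : (ngt Q).prob O = 1 - Q.prob O := by
  have h1 : (ngt Q).prob O = ∑ i ∈ Q.accᶜ, ‖Q.state O Q.T i‖ ^ 2 := by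
    change ∑ i ∈ Q.accᶜ, ‖(ngt Q).state O Q.T i‖ ^ 2 = _
    rw [ngt_state]
  have h2 := sum_compl_add_sum Q.acc fun i => ‖Q.state O Q.T i‖ ^ 2
  rw [state_nrm] at h2
  rw [h1]
  unfold QAlg.prob
  linarith

theorem pf_SPV (hCOD : T_COD) (hYWQ : T_YWQ) : T_SPV := by
  intro k j F
  refine ⟨macV F hCOD, fun i => ?_⟩
  obtain ⟨c₁, hY⟩ := hYWQ
  choose Y hYT hYS hYp using hY
  -- the lengths
  set zn : ℕ → ℕ := fun n => 2 ^ (j + 1) * (2 * (n ^ F.c + F.c + n) + 2) with hzn
  set sn : ℕ → ℕ := fun n => 2 * zn n + 2 * i + (zn n ^ F.c + F.c + 1) ^ (i + 2) + 2 with hsn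
  set Bn : ℕ → ℕ := fun n => (sn n ^ c₁ + c₁) + (n ^ F.c + F.c) with hBn
  have hzP : PB zn := (PB.const _).mul (((PB.const 2).mul (((PB.id.pow F.c).add
    (PB.const F.c)).add PB.id)).add (PB.const 2))
  have hsP : PB sn := ((((PB.const 2).mul hzP).add (PB.const (2 * i))).add
    ((((hzP.pow F.c).add (PB.const F.c)).add (PB.const 1)).pow (i + 2))).add (PB.const 2)
  have hBP : PB Bn := ((hsP.pow c₁).add (PB.const c₁)).add ((PB.id.pow F.c).add (PB.const F.c))
  obtain ⟨C, hC⟩ := hBP.std
  have hz : ∀ (x : List Bool) (ws : List (List Bool)), ws.length = j →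
      (∀ w ∈ ws, w.length ≤ Lx F x) → (encl (x :: ws)).length ≤ zn x.length := by
    intro x ws h1 h2
    have h3 := encl_len hCOD (Lx F x + x.length) (x :: ws) (by
      intro w hw
      rcases List.mem_cons.1 hw with rfl | hw
      · exact Nat.le_add_left _ _
      · exact (h2 w hw).trans (Nat.le_add_right _ _))
    rw [List.length_cons, h1] at h3
    change _ ≤ 2 ^ (j + 1) * (2 * (Lx F x + x.length) + 2)
    omega
  have hs : ∀ (x : List Bool) (ws : List (List Bool)), ws.length = j →
      (∀ w ∈ ws, w.length ≤ Lx F x) → (inw F.c i (encl (x :: ws))).length ≤ sn x.length := by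
    intro x ws h1 h2
    have h3 := hz x ws h1 h2
    have h4 : (inw F.c i (encl (x :: ws))).length = 2 * (encl (x :: ws)).length +
        2 * (List.replicate i true).length + ((encl (x :: ws)).length ^ F.c + F.c + 1) ^ (i + 2) +
        2 := hCOD.2 _ _ _
    rw [h4, List.length_replicate]
    have h5 : ((encl (x :: ws)).length ^ F.c + F.c + 1) ^ (i + 2) ≤
        (zn x.length ^ F.c + F.c + 1) ^ (i + 2) := by gcongr
    change _ ≤ 2 * zn x.length + 2 * i + (zn x.length ^ F.c + F.c + 1) ^ (i + 2) + 2
    omega
  -- the algorithms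
  set A : List Bool → List (List Bool) → QAlg := fun x ws =>
    sgq (par j true) (Y (inw F.c i (encl (x :: ws)))) with hA
  classical
  set alg : List Bool → List (List Bool) → QAlg := fun x ws =>
    if ws.length = j then A x (ws.map (cut (Lx F x))) else cst false with halg
  have hlen : ∀ (x : List Bool) (ws : List (List Bool)), ws.length = j →
      (ws.map (cut (Lx F x))).length = j ∧ ∀ w ∈ ws.map (cut (Lx F x)), w.length ≤ Lx F x := by
    intro x ws h
    refine ⟨by rw [List.length_map, h], fun w hw => ?_⟩
    obtain ⟨v, -, rfl⟩ := List.mem_map.1 hw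
    exact cut_le _ _
  have hbd : ∀ (x : List Bool) (ws : List (List Bool)), ws.length = j →
      (∀ w ∈ ws, w.length ≤ Lx F x) → (inw F.c i (encl (x :: ws))).length ^ c₁ + c₁ ≤
        x.length ^ C + C := by
    intro x ws h1 h2
    have h3 : (inw F.c i (encl (x :: ws))).length ^ c₁ ≤ sn x.length ^ c₁ :=
      Nat.pow_le_pow_left (hs x ws h1 h2) _
    have h4 : sn x.length ^ c₁ + c₁ + (x.length ^ F.c + F.c) ≤ x.length ^ C + C := hC x.length
    omega
  obtain ⟨U, hP, hUc, hUa⟩ := exists_mach j C alg (by
      intro x ws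
      simp only [halg]
      split_ifs with h
      · obtain ⟨g1, g2⟩ := hlen x ws h
        have h5 : ∀ (Q : QAlg) (m m' : ℕ), m ≤ m' → Q.Short m → Q.Short m' :=
          fun Q m m' hm hQ a w hw => (hQ a w hw).trans hm
        have h6 := h5 _ _ _ (hbd x _ g1 g2) (hYS (inw F.c i (encl (x :: ws.map (cut (Lx F x))))))
        simp only [hA, sgq]
        split_ifs
        · exact h6
        · exact h6
      · exact cst_short false _) (by
      intro x ws
      simp only [halg]
      split_ifs with h
      · obtain ⟨g1, g2⟩ := hlen x ws h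
        have h6 := (hYT (inw F.c i (encl (x :: ws.map (cut (Lx F x)))))).trans (hbd x _ g1 g2)
        simp only [hA, sgq]
        split_ifs
        · exact h6
        · exact h6
      · exact Nat.zero_le _)
  refine ⟨U, hP, fun O hO x => ?_⟩
  have hL : Lx F x ≤ x.length ^ C + C := by
    have h4 : sn x.length ^ c₁ + c₁ + (x.length ^ F.c + F.c) ≤ x.length ^ C + C := hC x.length
    change x.length ^ F.c + F.c ≤ _
    omega
  -- the inner statements
  have hin : ∀ ws : List (List Bool), ws.length = j → (∀ w ∈ ws, w.length ≤ Lx F x) →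
      (Inr F O x ws → (A x ws).prob O = 1) ∧ (¬ Inr F O x ws → (A x ws).prob O = 0) := by
    intro ws h1 h2
    have h3 := macV_lang F hCOD O x ws h1 h2
    have h4 := hO (encl (x :: ws))
    have h5 : (Y (inw F.c i (encl (x :: ws)))).prob O = yesW O (inw F.c i (encl (x :: ws))) :=
      hYp _ _
    change (_ → yesW O (inw F.c i (encl (x :: ws))) = 1) ∧
      (_ → yesW O (inw F.c i (encl (x :: ws))) = 0) at h4
    simp only [hA, sgq]
    revert h3
    cases par j true
    · intro h3
      rw [if_neg (by simp)]
      rw [ngt_prob, h5]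
      constructor
      · intro h6
        rw [h4.2 (fun h7 => by simpa [h6] using h3.1 h7)]
        norm_num
      · intro h6
        rw [h4.1 (h3.2 (by simpa using h6))]
        norm_num
    · intro h3
      rw [if_pos rfl, h5]
      constructor
      · intro h6
        exact h4.1 (h3.2 (by simpa using h6))
      · intro h6
        exact h4.2 (fun h7 => h6 (by simpa using h3.1 h7))
  constructor
  · intro hx
    have h1 := (lang_iff F O x).1 hx
    unfold Yes1
    rw [hUc, hUa]
    have h2 := (alt_cut hL j true fun ws => (A x ws).prob O = 1).2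
      (alt_mono _ _ _ _ _ (fun ws g1 g2 g3 => (hin ws g1 g2).1 g3) h1)
    refine alt_mono _ _ _ _ _ (fun ws g1 _ g3 => ?_) h2
    simp only [halg]
    rw [if_pos g1]
    exact g3
  · intro hx
    have h1 := (alt_not _ _ _ _).1 fun h => hx ((lang_iff F O x).2 h)
    unfold No0
    rw [hUc, hUa]
    have h2 := (alt_cut hL j false fun ws => (A x ws).prob O = 0).2
      (alt_mono _ _ _ _ _ (fun ws g1 g2 g3 => (hin ws g1 g2).2 g3) h1)
    refine alt_mono _ _ _ _ _ (fun ws g1 _ g3 => ?_) h2
    simp only [halg]
    rw [if_pos g1]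
    exact g3

end Pool.Agent.H70.QC
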