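import Pool.Agent.H70.QC.XSQ
import Pool.Agent.H70.QC.CHS
import Pool.Agent.H70.QC.Poly
import Pool.Agent.H6.NB.Targets

/-!
# Row YWQ: the algorithm `yesW` as a quantum query algorithm
-/

set_option autoImplicit false

namespace Pool.Agent.H70.QC

open Finset Pool.Agent.H6.NB Pool.Agent.H78.XQ
open Pool.Agent.H70.RC (arrp)
open Pool.Agent.H70.RK (flat)
open Pool.Agent.H70.RW (yesW inw hmw)

theorem flat_len {k m : ℕ} (a : Fin k → Fin m → Bool) : (flat a).length = k * m := by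
  unfold flat
  rw [List.length_flatten, List.map_ofFn]
  have h : (List.length ∘ fun i : Fin k => List.ofFn (a i)) = fun _ => m := by
    funext i
    simp
  rw [h]
  simp

/-- The bound for the lengths of the strings `hmw s i j`. -/
def hq (n : ℕ) : ℕ := 2 * n + 2 * (n + 1 + 4 * n) + 16 * (n + 20) ^ 3 + 2

/-- The length of the strings `arrp s a`. -/
def aq (n : ℕ) : ℕ := 2 * (n + 1) + 2 * (n * (4 * n)) + 3 + 2

theorem hq_PB : PB hq := ((((PB.const 2).mul PB.id).add ((PB.const 2).mul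
  ((PB.id.add (PB.const 1)).add ((PB.const 4).mul PB.id)))).add
  ((PB.const 16).mul ((PB.id.add (PB.const 20)).pow 3))).add (PB.const 2)

theorem aq_PB : PB aq := ((((PB.const 2).mul (PB.id.add (PB.const 1))).add ((PB.const 2).mul
  (PB.id.mul ((PB.const 4).mul PB.id)))).add (PB.const 3)).add (PB.const 2)

theorem sizes (K : ℕ) : ∃ C : ℕ, ∀ n : ℕ, n * (4 * n) * (6 * (K * (hq n + 1) ^ 4 + 1)) + 1 +
    K * (hq n + 1) ^ 4 + aq n ≤ n ^ C + C := by
  have hM : PB fun n => K * (hq n + 1) ^ 4 := (PB.const K).mul ((hq_PB.add (PB.const 1)).pow 4)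
  have hT : PB fun n => n * (4 * n) * (6 * (K * (hq n + 1) ^ 4 + 1)) + 1 :=
    ((PB.id.mul ((PB.const 4).mul PB.id)).mul ((PB.const 6).mul (hM.add (PB.const 1)))).add
      (PB.const 1)
  exact ((hT.add hM).add aq_PB).std

theorem pf_YWQ_aux (K : ℕ) (hCOD : T_COD) (hSIZ : ∀ s : List Bool, (exact s).T = 6 ∧
    (exact s).Small (K * (s.length + 1) ^ 4)) : T_YWQ := by
  obtain ⟨C, hC⟩ := sizes K
  refine ⟨C, fun s => ?_⟩
  have hC' := hC s.length
  obtain ⟨M, hM⟩ : ∃ M, M = K * (hq s.length + 1) ^ 4 := ⟨_, rfl⟩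
  obtain ⟨a₀, ha₀⟩ : ∃ a₀, a₀ = aq s.length := ⟨_, rfl⟩
  rw [← hM, ← ha₀] at hC'
  -- the algorithms for the bits
  have h1 : ∀ p : Fin s.length × Fin (4 * s.length), (exact (hmw s p.1 p.2)).Small M := by
    intro p
    have h2 := (hSIZ (hmw s p.1 p.2)).2
    have h3 : (hmw s p.1 p.2).length ≤ hq s.length := by
      have h4 : (hmw s p.1 p.2).length = 2 * s.length + 2 * (List.replicate (p.1 : ℕ) true ++
          false :: List.replicate (p.2 : ℕ) true).length + 16 * (s.length + 20) ^ 3 + 2 :=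
        hCOD.2 _ _ _
      rw [h4, List.length_append, List.length_cons, List.length_replicate, List.length_replicate]
      have h5 := p.1.2
      have h6 := p.2.2
      unfold hq
      omega
    have h7 : K * ((hmw s p.1 p.2).length + 1) ^ 4 ≤ M := by
      rw [hM]
      exact Nat.mul_le_mul_left _ (Nat.pow_le_pow_left (Nat.add_le_add_right h3 1) 4)
    exact fun i => ⟨(h2 i).1.trans h7, fun w hw => ((h2 i).2 w hw).trans h7⟩
  obtain ⟨P, hP⟩ : ∃ P : Fin s.length × Fin (4 * s.length) → (List Bool → Bool) → ℝ,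
      ∀ p O, P p O = (exact (hmw s p.1 p.2)).prob O := ⟨_, fun _ _ => rfl⟩
  have h2 : ∀ p : Fin s.length × Fin (4 * s.length), ∃ Q : QAlg, Q.T ≤ 6 * (M + 1) ∧ Q.Short M ∧
      ∀ O, Q.prob O = P p O := by
    intro p
    obtain ⟨Q, e1, e2, e3⟩ := pf_XSQ (exact (hmw s p.1 p.2)) M (h1 p)
    refine ⟨Q, ?_, e2, fun O => by rw [e3, hP]⟩
    rw [e1, (hSIZ _).1]
  choose A hAT hAS hAp using h2
  -- the last query
  have hB : ∀ a : Fin s.length × Fin (4 * s.length) → Bool,
      (qry (arrp s (flat fun i j => a (i, j)))).T ≤ 1 ∧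
      (qry (arrp s (flat fun i j => a (i, j)))).Short (M + a₀) := by
    intro a
    refine ⟨le_rfl, qry_short _ _ ?_⟩
    have h4 : (arrp s (flat fun i j => a (i, j))).length = 2 * (true :: s).length +
        2 * (flat fun i j => a (i, j)).length + 3 + 2 := hCOD.2 _ _ _
    rw [h4, flat_len, List.length_cons, ha₀]
    unfold aq
    omega
  obtain ⟨Q, hQT, hQS, hQp⟩ := pf_CHS (Fin s.length × Fin (4 * s.length)) A
    (fun a => qry (arrp s (flat fun i j => a (i, j)))) (6 * (M + 1)) 1 (M + a₀)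
    (fun p => ⟨hAT p, fun i w hw => (hAS p i w hw).trans (Nat.le_add_right _ _)⟩)
    hB
  refine ⟨Q, hQT.trans ?_, fun i w hw => (hQS i w hw).trans ?_, fun O => ?_⟩
  · rw [Fintype.card_prod, Fintype.card_fin, Fintype.card_fin]
    omega
  · omega
  · rw [hQp]
    unfold yesW
    refine Fintype.sum_equiv (Equiv.curry (Fin s.length) (Fin (4 * s.length)) Bool) _ _ fun a => ?_
    have h9 : (qry (arrp s (flat fun i j => a (i, j)))).prob O =
        if O (arrp s (flat (Equiv.curry _ _ _ a))) then 1 else 0 := qry_prob _ O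
    rw [h9, Fintype.prod_prod_type]
    congr 1
    refine prod_congr rfl fun i _ => prod_congr rfl fun j _ => ?_
    rw [hAp (i, j) O, hP (i, j) O]
    rfl

theorem pf_YWQ (hCOD : T_COD) (hSIZ : ∀ s : List Bool, (exact s).T = 6 ∧
    (exact s).Small (4 * 10 ^ 9 * (s.length + 1) ^ 4)) : T_YWQ :=
  pf_YWQ_aux (4 * 10 ^ 9) hCOD hSIZ

end Pool.Agent.H70.QC
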