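import Pool.Agent.H68.QT.Targets
import Pool.Agent.H78.XQ.All
import Pool.Agent.H70.QC.SPV
import Pool.Agent.H70.QC.YWQ

/-!
# The quantum classical hierarchy relative to an oracle with Σ_k in EQP, with the inclusions: assembly
-/

set_option autoImplicit false

namespace Pool.Agent.H70.QC

open Pool.Agent.H6.NB Pool.Agent.H70.OQ Pool.Agent.H68.QC Pool.Agent.H68.QT
open Pool.Agent.H70.RW (yesW inw)
open Pool.Agent.H78.OY (PCorrect)

theorem all_YWQ : T_YWQ := pf_YWQ Pool.Agent.H19.NB.t_cod Pool.Agent.H78.XQ.pf_SIZ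

theorem all_SPV : T_SPV := pf_SPV Pool.Agent.H19.NB.t_cod all_YWQ

/-- The final theorem with the inclusions. -/
theorem fin_SHP (h : T_FNT) (k : ℕ) (hk : 1 ≤ k) (V : ℕ → Machine k) (f : ℕ → ℕ)
    (F : ∀ i, Machine (k + f i)) : ∃ G : ∀ i, QMach (f i), (∀ i, Poly (G i)) ∧
    ∀ (j a : ℕ → ℕ) (U : ∀ i, QMach (j i)) (M : ∀ i, TMach (a i))
      (R : ℕ → List Bool → Set QAlg),
      (∀ i, ∃ (c C : ℕ) (ε : ℝ), 0 < ε ∧ ∀ x : List Bool, ∀ A ∈ R i x,
        A.Short (x.length ^ c + c) ∧ (A.T : ℝ) ≤ C * 2 ^ ((1 / 2 - ε) * x.length)) →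
      ∃ O : List Bool → Bool,
        (∀ i x, (x ∈ (V i).lang O → yesW O (inw (V i).c (2 * i) x) = 1) ∧
          (x ∉ (V i).lang O → yesW O (inw (V i).c (2 * i) x) = 0)) ∧
        (∀ i x, (x ∈ (F i).lang O → Yes1 (G i) O x) ∧ (x ∉ (F i).lang O → No0 (G i) O x)) ∧
        (∀ l, 1 ≤ l → OneSpecialP l O) ∧
        (∀ i m, ∃ n ≥ m, (∃ r, n = 2 ^ r) ∧
          ¬ (U i).Right O (hlang (k + j i) O) (List.replicate n false)) ∧
        (∀ i m, ∃ n ≥ m, (∃ r, n = 2 ^ r) ∧
          ¬ (M i).Right O (hlang (k + a i) O) (List.replicate n false)) ∧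
        (∀ i b m, j i = b + 1 → ∃ n ≥ m,
          ¬ (U i).Right O (hlang (k + b) O)ᶜ (List.replicate n false)) ∧
        ∀ i m, ∃ n ≥ m, ¬ PCorrect (R i (List.replicate n false)) O (hlang k O)ᶜ
          (List.replicate n false) := by
  choose W hW using fun i => all_SPV k (f i) (F i)
  choose G hP hG using fun i => hW i (2 * i + 1)
  refine ⟨G, hP, fun j a U M R hR => ?_⟩
  obtain ⟨O, h1, h2⟩ := h k hk (fun n => if n % 2 = 0 then V (n / 2) else W (n / 2)) j a U M R hR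
  refine ⟨O, fun i x => ?_, fun i x => hG i O (fun y => ?_) x, h2⟩
  · have h3 := h1 (2 * i) x
    have e1 : 2 * i % 2 = 0 := by omega
    have e2 : 2 * i / 2 = i := by omega
    simp only [e1, e2, if_true] at h3
    exact h3
  · have h3 := h1 (2 * i + 1) y
    have e1 : (2 * i + 1) % 2 = 1 := by omega
    have e2 : (2 * i + 1) / 2 = i := by omega
    simp only [e1, e2, one_ne_zero, if_false] at h3
    exact h3

end Pool.Agent.H70.QC
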