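import Pool.Agent.H70.QC.Bind

/-!
# Decision trees as quantum query algorithms
-/

set_option autoImplicit false

namespace Pool.Agent.H70.QC

open Finset Pool.Agent.H6.NB
open scoped Matrix

/-- The Hadamard gate. -/
noncomputable def had : Matrix Bool Bool ℂ :=
  Matrix.of fun i j => (((if i && j then -1 else 1) / √2 : ℝ) : ℂ)

theorem had_unitary : had ∈ Matrix.unitaryGroup Bool ℂ := by
  have h2 : (√2 : ℝ) * √2 = 2 := Real.mul_self_sqrt (by norm_num)
  have hb : ∀ a b : Bool, ∑ y : Bool, ((if a && y then (-1 : ℝ) else 1) / √2) *
      ((if b && y then (-1 : ℝ) else 1) / √2) = if a = b then 1 else 0 := by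
    intro a b
    rw [Fintype.sum_bool, div_mul_div_comm, div_mul_div_comm, h2]
    cases a <;> cases b <;> norm_num
  rw [Matrix.mem_unitaryGroup_iff]
  ext i j
  rw [Matrix.mul_apply, Matrix.one_apply]
  have h1 : ∀ y : Bool, had i y * star had y j =
      ((((if i && y then (-1 : ℝ) else 1) / √2) * ((if j && y then (-1 : ℝ) else 1) / √2) : ℝ) :
        ℂ) := by
    intro y
    simp only [had, Matrix.star_apply, Matrix.of_apply]
    rw [Complex.star_def, Complex.conj_ofReal, ← Complex.ofReal_mul]
  rw [sum_congr rfl fun y _ => h1 y, ← Complex.ofReal_sum, hb i j]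
  split_ifs <;> simp

/-- The algorithm without queries which always gives the answer `b`. -/
noncomputable def cst (b : Bool) : QAlg where
  basis := Unit
  query := fun _ => none
  T := 0
  U := fun _ => 1
  unitary := fun _ => one_mem _
  init := fun _ => 1
  norm_init := by simp
  acc := if b then univ else ∅

theorem cst_prob (b : Bool) (O : List Bool → Bool) : (cst b).prob O = if b then 1 else 0 := by
  have h : ∀ i : Unit, ‖(cst b).state O 0 i‖ ^ 2 = 1 := by
    intro i
    change ‖((1 : Matrix Unit Unit ℂ) *ᵥ fun _ => 1) i‖ ^ 2 = 1
    rw [Matrix.one_mulVec]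
    simp
  change ∑ i ∈ (if b then (univ : Finset Unit) else ∅), ‖(cst b).state O 0 i‖ ^ 2 = _
  rw [sum_congr rfl fun i _ => h i]
  cases b <;> simp

theorem cst_short (b : Bool) (k : ℕ) : (cst b).Short k := by
  intro i w hw
  exact absurd hw (by change ¬ none = some w; simp)

/-- The algorithm which queries the string `w` and accepts iff the oracle contains it. -/
noncomputable def qry (w : List Bool) : QAlg where
  basis := Bool
  query := fun b => if b then some w else none
  T := 1
  U := fun _ => had
  unitary := fun _ => had_unitary
  init := fun b => if b then 0 else 1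
  norm_init := by simp
  acc := {true}

theorem qry_prob (w : List Bool) (O : List Bool → Bool) :
    (qry w).prob O = if O w then 1 else 0 := by
  have h2 : ((√2 : ℝ) : ℂ) ^ 2 = 2 := by
    rw [← Complex.ofReal_pow, Real.sq_sqrt (by norm_num)]
    simp
  have h2' : ((√2 : ℝ) : ℂ) ≠ 0 := by
    intro h
    rw [h] at h2
    norm_num at h2
  have h0 : ∀ i, (qry w).state O 0 i = 1 / ((√2 : ℝ) : ℂ) := by
    intro i
    change (had *ᵥ fun b => if b then 0 else 1) i = _
    simp only [Matrix.mulVec, dotProduct, Fintype.sum_bool, had, Matrix.of_apply]
    cases i <;> simp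
  have h1 : (qry w).state O 1 true = if O w then 1 else 0 := by
    change (had *ᵥ fun i => (qry w).phase O i * (qry w).state O 0 i) true = _
    have hp1 : (qry w).phase O true = if O w then -1 else 1 := rfl
    have hp0 : (qry w).phase O false = 1 := rfl
    simp only [Matrix.mulVec, dotProduct, Fintype.sum_bool, h0, hp1, hp0]
    simp only [had, Matrix.of_apply]
    by_cases h : O w = true
    · simp only [h, if_true]
      simp only [Bool.and_self, if_true, Bool.and_false, Bool.false_eq_true, if_false]
      push_cast
      field_simp
      rw [h2]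
      norm_num
    · simp only [h]
      simp only [Bool.and_self, if_true, Bool.and_false, Bool.false_eq_true, if_false]
      push_cast
      field_simp
      norm_num
  change ∑ i ∈ ({true} : Finset Bool), ‖(qry w).state O 1 i‖ ^ 2 = _
  rw [sum_singleton, h1]
  by_cases h : O w = true <;> simp [h]

theorem qry_short (w : List Bool) (k : ℕ) (hw : w.length ≤ k) : (qry w).Short k := by
  have h : ∀ (i : Bool) (v : List Bool), (if i then some w else none) = some v → v.length ≤ k := by
    intro i v hv
    cases i with
    | false => exact absurd hv (by simp)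
    | true =>
      have e : w = v := by simpa using hv
      rw [← e]
      exact hw
  exact h

/-- The quantum algorithm for a decision tree. -/
noncomputable def dtq : DT → QAlg
  | .leaf b => cst b
  | .node w l r => ite (qry w) (dtq r) (dtq l)

theorem dtq_T (t : DT) : (dtq t).T = t.depth := by
  induction t with
  | leaf b => rfl
  | node w l r hl hr =>
    change 1 + max (dtq r).T (dtq l).T = max l.depth r.depth + 1
    rw [hl, hr, max_comm, add_comm]

theorem dtq_short (t : DT) (k : ℕ) (h : t.Short k) : (dtq t).Short k := by
  induction t with
  | leaf b => exact cst_short b k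
  | node w l r hl hr => exact ite_short _ _ _ k (qry_short w k h.1) (hr h.2.2) (hl h.2.1)

theorem dtq_prob (t : DT) (O : List Bool → Bool) :
    (dtq t).prob O = if t.eval O then 1 else 0 := by
  induction t with
  | leaf b => exact cst_prob b O
  | node w l r hl hr =>
    change (ite (qry w) (dtq r) (dtq l)).prob O = if (if O w then r.eval O else l.eval O) then 1
      else 0
    rw [ite_prob, qry_prob, hl, hr]
    by_cases h : O w = true <;> simp [h]

end Pool.Agent.H70.QC
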