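import Pool.Agent.H68.QC.Stmt
import Pool.Agent.H70.RW.Stmt
import Pool.Agent.H70.QC.Tree

/-!
# The level Σ_(k+j) is contained in QCΣ_j relative to the oracle: targets
-/

set_option autoImplicit false

namespace Pool.Agent.H70.QC

open Finset Pool.Agent.H6.NB Pool.Agent.H70.OQ Pool.Agent.H78.XQ Pool.Agent.H68.QC
open Pool.Agent.H70.RW (yesW inw)

/-- The machine makes only polynomially many queries. -/
def Poly {j : ℕ} (U : QMach j) : Prop :=
  ∃ c, ∀ x ws, ws.length = j → (∀ w ∈ ws, w.length ≤ x.length ^ U.c + U.c) →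
    (U.alg x ws).T ≤ x.length ^ c + c

/-- `∃ w₁ ∀ w₂ ∃ w₃ …` (lengths at most `|x| ^ c + c`) the quantum algorithm accepts with probability
`1`. -/
def Yes1 {j : ℕ} (U : QMach j) (O : List Bool → Bool) (x : List Bool) : Prop :=
  Alt (fun w => w.length ≤ x.length ^ U.c + U.c) true j fun ws => (U.alg x ws).prob O = 1

/-- `∀ w₁ ∃ w₂ ∀ w₃ …` (lengths at most `|x| ^ c + c`) the quantum algorithm accepts with probability
`0`. -/
def No0 {j : ℕ} (U : QMach j) (O : List Bool → Bool) (x : List Bool) : Prop :=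
  Alt (fun w => w.length ≤ x.length ^ U.c + U.c) false j fun ws => (U.alg x ws).prob O = 0

/-- XSQ: parallel queries can be made one after the other. (Basis: `X.basis × Fin (m + 1)`, a clock; every
round is replaced by `m + 1` queries, the basis state `(i, c)` queries the entry number `c` of the list
`X.query i`.) -/
def T_XSQ : Prop := ∀ (X : XAlg) (m : ℕ), X.Small m →
  ∃ Q : QAlg, Q.T = X.T * (m + 1) ∧ Q.Short m ∧ ∀ O, Q.prob O = X.prob O

/-- CHS: run the algorithms `A i`, let `a i` be the outcome, then run `B a`. -/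
def T_CHS : Prop := ∀ (ι : Type) [Fintype ι] [DecidableEq ι] (A : ι → QAlg) (B : (ι → Bool) → QAlg)
  (t t' m : ℕ), (∀ i, (A i).T ≤ t ∧ (A i).Short m) → (∀ a, (B a).T ≤ t' ∧ (B a).Short m) →
  ∃ Q : QAlg, Q.T ≤ Fintype.card ι * t + t' ∧ Q.Short m ∧ ∀ O, Q.prob O =
    ∑ a : ι → Bool, (∏ i, if a i then (A i).prob O else 1 - (A i).prob O) * (B a).prob O

/-- YWQ: the algorithm `yesW` as a quantum query algorithm. -/
def T_YWQ : Prop := ∃ c : ℕ, ∀ s : List Bool, ∃ Q : QAlg, Q.T ≤ s.length ^ c + c ∧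
  Q.Short (s.length ^ c + c) ∧ ∀ O, Q.prob O = yesW O s

/-- NEG: the opposite answer. -/
def T_NEG : Prop := ∀ Q : QAlg, ∃ Q' : QAlg, Q'.T = Q.T ∧ (∀ m, Q.Short m → Q'.Short m) ∧
  ∀ O, Q'.prob O = 1 - Q.prob O

/-- INC: `Σ_l` is contained in `QCΣ_l`. -/
def T_INC : Prop := ∀ (l : ℕ) (F : Machine l), ∃ U : QMach l, Poly U ∧
  ∀ O x, (x ∈ F.lang O → Yes1 U O x) ∧ (x ∉ F.lang O → No0 U O x)

/-- SPV: if `yesW` decides the language of a certain `Σ_k` machine `V` then the language of the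
`Σ_(k+j)` machine `F` is in `QCΣ_j`. -/
def T_SPV : Prop := ∀ (k j : ℕ) (F : Machine (k + j)), ∃ V : Machine k, ∀ i : ℕ, ∃ U : QMach j,
  Poly U ∧ ∀ O, (∀ x, (x ∈ V.lang O → yesW O (inw V.c i x) = 1) ∧
    (x ∉ V.lang O → yesW O (inw V.c i x) = 0)) →
  ∀ x, (x ∈ F.lang O → Yes1 U O x) ∧ (x ∉ F.lang O → No0 U O x)

end Pool.Agent.H70.QC
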