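import Pool.Agent.H70.QC.TargetsS

/-!
# Row XSQ: parallel queries can be made one after the other
-/

set_option autoImplicit false

namespace Pool.Agent.H70.QC

open Finset Pool.Agent.H6.NB Pool.Agent.H78.XQ
open scoped Matrix

section clock

variable {B : Type} [Fintype B] [DecidableEq B] (m : ℕ)

/-- Apply `M` and increment the clock. -/
def kr (M : Matrix B B ℂ) : Matrix (B × Fin (m + 1)) (B × Fin (m + 1)) ℂ :=
  Matrix.of fun x y => if x.2 = y.2 + 1 then M x.1 y.1 else 0

/-- The vector `w`, the clock shows `c`. -/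
def ev (c : Fin (m + 1)) (w : B → ℂ) : B × Fin (m + 1) → ℂ := fun x => if x.2 = c then w x.1 else 0

omit [DecidableEq B] in
theorem kr_ev (M : Matrix B B ℂ) (c : Fin (m + 1)) (w : B → ℂ) :
    kr m M *ᵥ ev m c w = ev m (c + 1) (M *ᵥ w) := by
  funext x
  simp only [Matrix.mulVec, dotProduct, kr, ev, Matrix.of_apply]
  rw [Fintype.sum_prod_type]
  have h1 : ∀ b : B, ∑ d : Fin (m + 1), (if x.2 = d + 1 then M x.1 b else 0) *
      (if d = c then w b else 0) = if x.2 = c + 1 then M x.1 b * w b else 0 := by
    intro b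
    rw [Finset.sum_eq_single c]
    · rw [if_pos rfl]
      split_ifs <;> simp
    · intro d _ hd
      rw [if_neg hd, mul_zero]
    · simp
  rw [sum_congr rfl fun b _ => h1 b]
  split_ifs
  · rfl
  · exact sum_const_zero

theorem kr_unitary {M : Matrix B B ℂ} (h : M ∈ Matrix.unitaryGroup B ℂ) :
    kr m M ∈ Matrix.unitaryGroup (B × Fin (m + 1)) ℂ := by
  rw [Matrix.mem_unitaryGroup_iff] at h ⊢
  ext x y
  rw [Matrix.mul_apply, Fintype.sum_prod_type, Matrix.one_apply]
  have h1 : ∀ b : B, ∑ d : Fin (m + 1), kr m M x (b, d) * star (kr m M) (b, d) y =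
      if x.2 = y.2 then M x.1 b * star M b y.1 else 0 := by
    intro b
    rw [Finset.sum_eq_single (x.2 - 1)]
    · simp only [kr, Matrix.star_apply, Matrix.of_apply, sub_add_cancel, if_true]
      by_cases hxy : x.2 = y.2
      · rw [if_pos hxy, if_pos hxy.symm]
      · rw [if_neg hxy, if_neg (fun e => hxy e.symm)]
        simp
    · intro d _ hd
      have : ¬ x.2 = d + 1 := fun e => hd (by rw [e, add_sub_cancel_right])
      simp only [kr, Matrix.of_apply, if_neg this, zero_mul]
    · simp
  rw [sum_congr rfl fun b _ => h1 b]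
  by_cases hxy : x.2 = y.2
  · simp only [hxy, if_true]
    have h2 := congrFun (congrFun h x.1) y.1
    rw [Matrix.mul_apply, Matrix.one_apply] at h2
    rw [h2]
    by_cases h3 : x.1 = y.1
    · rw [if_pos h3, if_pos (Prod.ext h3 hxy)]
    · rw [if_neg h3, if_neg (fun e => h3 (by rw [e]))]
  · simp only [hxy, if_false, sum_const_zero]
    rw [if_neg (fun e => hxy (by rw [e]))]

omit [Fintype B] [DecidableEq B] in
theorem ev_norm (c : Fin (m + 1)) (w : B → ℂ) (S : Finset B) :
    ∑ x ∈ S ×ˢ (univ : Finset (Fin (m + 1))), ‖ev m c w x‖ ^ 2 = ∑ i ∈ S, ‖w i‖ ^ 2 := by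
  rw [sum_product]
  refine sum_congr rfl fun b _ => ?_
  rw [Finset.sum_eq_single c]
  · simp [ev]
  · intro d _ hd
    simp [ev, hd]
  · simp

end clock

/-- The phase of the entry number `c` of the list `l`. -/
def pc (O : List Bool → Bool) (l : List (List Bool)) (c : ℕ) : ℂ :=
  match l[c]? with
  | none => 1
  | some w => if O w then -1 else 1

theorem prod_pc (O : List Bool → Bool) : ∀ (l : List (List Bool)) (n : ℕ), l.length ≤ n →
    (l.map fun w => if O w then (-1 : ℂ) else 1).prod = ∏ c ∈ range n, pc O l c := by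
  intro l
  induction l with
  | nil =>
    intro n _
    rw [List.map_nil, List.prod_nil]
    exact (prod_eq_one fun c _ => rfl).symm
  | cons w l ih =>
    intro n hn
    cases n with
    | zero => simp at hn
    | succ n =>
      rw [prod_range_succ', List.map_cons, List.prod_cons, ih n (by simpa using hn), mul_comm]
      rfl

/-- The algorithm with the queries one after the other. -/
noncomputable def xsq (X : XAlg) (m : ℕ) : QAlg where
  basis := X.basis × Fin (m + 1)
  query := fun x => (X.query x.1)[x.2.val]?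
  T := X.T * (m + 1)
  U := fun s => kr m (if m + 1 ∣ s then X.U (s / (m + 1)) else 1)
  unitary := fun s => by
    refine kr_unitary m ?_
    split_ifs
    · exact X.unitary _
    · exact one_mem _
  init := ev m (Fin.last m) X.init
  norm_init := by
    rw [← X.norm_init, ← ev_norm m (Fin.last m) X.init univ, univ_product_univ]
  acc := X.acc ×ˢ univ

/-- The clock at the time `s`. -/
def ck (m s : ℕ) : Fin (m + 1) := ⟨s % (m + 1), Nat.mod_lt _ (Nat.succ_pos m)⟩

theorem ck_succ (m s : ℕ) : ck m s + 1 = ck m (s + 1) := by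
  apply Fin.ext
  rw [Fin.val_add, Fin.val_one']
  change (s % (m + 1) + 1 % (m + 1)) % (m + 1) = (s + 1) % (m + 1)
  rw [← Nat.add_mod]

section

variable (X : XAlg) (m : ℕ) (O : List Bool → Bool)

/-- The states without the clock. -/
noncomputable def wst : ℕ → X.basis → ℂ
  | 0 => X.U 0 *ᵥ X.init
  | s + 1 => (if m + 1 ∣ s + 1 then X.U ((s + 1) / (m + 1)) else 1) *ᵥ
      fun i => pc O (X.query i) (s % (m + 1)) * wst s i

theorem xsq_state (s : ℕ) :
    (xsq X m).state O s = ev m (ck m s) (wst X m O s) := by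
  induction s with
  | zero =>
    change kr m (if m + 1 ∣ 0 then X.U (0 / (m + 1)) else 1) *ᵥ ev m (Fin.last m) X.init = _
    have h0 : ck m 0 = 0 := Fin.ext (Nat.zero_mod _)
    rw [if_pos (dvd_zero _), kr_ev, Nat.zero_div, Fin.last_add_one, h0]
    rfl
  | succ s ih =>
    change kr m (if m + 1 ∣ s + 1 then X.U ((s + 1) / (m + 1)) else 1) *ᵥ
      (fun x => (xsq X m).phase O x * (xsq X m).state O s x) = _
    rw [ih]
    have h1 : (fun x => (xsq X m).phase O x * ev m (ck m s) (wst X m O s) x) =
        ev m (ck m s) fun i => pc O (X.query i) (s % (m + 1)) * wst X m O s i := by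
      funext x
      change pc O (X.query x.1) x.2.val * (if x.2 = (ck m s) then
        wst X m O s x.1 else 0) = if x.2 = (ck m s) then
        pc O (X.query x.1) (s % (m + 1)) * wst X m O s x.1 else 0
      split_ifs with h
      · rw [h]
        rfl
      · exact mul_zero _
    refine (congrArg (fun v => kr m (if m + 1 ∣ s + 1 then X.U ((s + 1) / (m + 1)) else 1) *ᵥ v)
      h1).trans ?_
    rw [kr_ev, ck_succ]
    rfl

theorem wst_round (t : ℕ) (h0 : wst X m O (t * (m + 1)) = X.state O t) : ∀ r, r ≤ m →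
    wst X m O (t * (m + 1) + r) = fun i => (∏ c ∈ range r, pc O (X.query i) c) * X.state O t i := by
  intro r
  induction r with
  | zero =>
    intro _
    rw [Nat.add_zero, h0]
    funext i
    simp
  | succ r ih =>
    intro hr
    have h1 : ¬ m + 1 ∣ t * (m + 1) + r + 1 := by
      intro h
      have h2 : m + 1 ∣ r + 1 := by
        have h3 := (Nat.dvd_add_right (Dvd.intro_left t rfl : m + 1 ∣ t * (m + 1))).1
          (by rw [← add_assoc]; exact h : m + 1 ∣ t * (m + 1) + (r + 1))
        exact h3
      have h4 := Nat.le_of_dvd (Nat.succ_pos r) h2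
      omega
    have h2 : (t * (m + 1) + r) % (m + 1) = r := by
      rw [add_comm, Nat.add_mul_mod_self_right, Nat.mod_eq_of_lt (by omega)]
    change (if m + 1 ∣ t * (m + 1) + r + 1 then X.U ((t * (m + 1) + r + 1) / (m + 1)) else 1) *ᵥ
      (fun i => pc O (X.query i) ((t * (m + 1) + r) % (m + 1)) * wst X m O (t * (m + 1) + r) i) = _
    rw [if_neg h1, Matrix.one_mulVec, h2, ih (by omega)]
    funext i
    rw [prod_range_succ]
    ring

theorem wst_eq (hX : X.Small m) (t : ℕ) : wst X m O (t * (m + 1)) = X.state O t := by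
  induction t with
  | zero =>
    rw [Nat.zero_mul]
    rfl
  | succ t ih =>
    have h1 := wst_round X m O t ih m le_rfl
    have h2 : (t + 1) * (m + 1) = t * (m + 1) + m + 1 := by ring
    have h3 : (t * (m + 1) + m + 1) / (m + 1) = t + 1 := by
      rw [← h2, Nat.mul_div_cancel _ (Nat.succ_pos m)]
    have h4 : (t * (m + 1) + m) % (m + 1) = m := by
      rw [add_comm, Nat.add_mul_mod_self_right, Nat.mod_eq_of_lt (by omega)]
    have h5 : m + 1 ∣ t * (m + 1) + m + 1 := by
      rw [← h2]
      exact Dvd.intro_left _ rfl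
    rw [h2]
    change (if m + 1 ∣ t * (m + 1) + m + 1 then X.U ((t * (m + 1) + m + 1) / (m + 1)) else 1) *ᵥ
      (fun i => pc O (X.query i) ((t * (m + 1) + m) % (m + 1)) * wst X m O (t * (m + 1) + m) i) = _
    rw [if_pos h5, h3, h4, h1]
    change _ = X.U (t + 1) *ᵥ fun i => X.phase O i * X.state O t i
    congr 1
    funext i
    unfold XAlg.phase
    rw [prod_pc O (X.query i) (m + 1) ((hX i).1.trans (Nat.le_succ m)), prod_range_succ]
    ring

theorem xsq_prob (hX : X.Small m) : (xsq X m).prob O = X.prob O := by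
  change ∑ x ∈ X.acc ×ˢ (univ : Finset (Fin (m + 1))), ‖(xsq X m).state O (X.T * (m + 1)) x‖ ^ 2 = _
  rw [xsq_state, ev_norm, wst_eq X m O hX]
  rfl

end

theorem pf_XSQ : T_XSQ := by
  intro X m hX
  refine ⟨xsq X m, rfl, ?_, fun O => xsq_prob X m O hX⟩
  intro x w hw
  have h : (X.query x.1)[x.2.val]? = some w := hw
  exact (hX x.1).2 w (List.mem_of_getElem? h)

end Pool.Agent.H70.QC
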